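import Pool.Agent.Helper14.FO.Defs2

set_option autoImplicit false

namespace Pool.Agent.Helper14.FO

open Finset

theorem gap_set {W : Type} [Fintype W] (p : W → Prop) : ∃ N : Finset W, ∀ x, x ∈ N ↔ p x := by
  classical
  exact ⟨univ.filter p, fun x => by
    rw [Finset.mem_filter]
    exact ⟨fun h => h.2, fun h => ⟨Finset.mem_univ _, h⟩⟩⟩

/-- the quadratic form with its diagonal: sum of squares -/
theorem gap_sq {W : Type} [Fintype W] (E : W → W → ℝ) (ρ : W → ℝ)
    (hs : ∀ x y, E x y = E y x) (hr : ∀ x, ∑ y, E x y = ρ x) (s : ℝ) (hs2 : s ^ 2 = 1)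
    (f : W → ℝ) :
    ∑ x, ∑ y, E x y * (f x + s * f y) ^ 2 =
      2 * (∑ x, ρ x * f x ^ 2 + s * ∑ x, ∑ y, E x y * f x * f y) := by
  have a1 : ∑ x, ∑ y, E x y * f x ^ 2 = ∑ x, ρ x * f x ^ 2 := by
    refine Finset.sum_congr rfl fun x _ => ?_
    rw [← Finset.sum_mul, hr]
  have a2 : ∑ x, ∑ y, E x y * f y ^ 2 = ∑ x, ρ x * f x ^ 2 := by
    rw [Finset.sum_comm]
    refine Finset.sum_congr rfl fun x _ => ?_
    rw [← Finset.sum_mul, ← hr x]
    congr 1
    exact Finset.sum_congr rfl fun y _ => hs y x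
  have e : ∀ x y, E x y * (f x + s * f y) ^ 2 =
      E x y * f x ^ 2 + E x y * f y ^ 2 + 2 * s * (E x y * f x * f y) := by
    intro x y
    have : (f x + s * f y) ^ 2 = f x ^ 2 + s ^ 2 * f y ^ 2 + 2 * s * (f x * f y) := by ring
    rw [this, hs2]
    ring
  rw [Finset.sum_congr rfl fun x _ => Finset.sum_congr rfl fun y _ => e x y]
  simp only [Finset.sum_add_distrib, ← Finset.mul_sum]
  rw [a1, a2]
  ring

theorem gap_fm {W : Type} [Fintype W] [DecidableEq W] [Nonempty W] (Y : SimpleGraph W)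
    (ρ : W → ℝ) (E : W → W → ℝ) (c : ℝ) (hs : ∀ x y, E x y = E y x) (h0 : ∀ x y, 0 ≤ E x y)
    (hr : ∀ x, ∑ y, E x y = ρ x) (hp : ∀ x y, Y.Adj x y → 0 < E x y) (hρ : ∀ x, 0 < ρ x)
    (h1 : ∑ x, ρ x = 1) (hX : XP Y ρ c) (hc : 2 < c) :
    ∃ M : ℝ, 0 < M ∧ M < 1 ∧ FM ρ E M := by
  classical
  let Q : (W → ℝ) → ℝ := fun f => ∑ x, ∑ y, E x y * f x * f y + ∑ x, ρ x * f x ^ 2
  have hQ : ∀ f, 2 * Q f = ∑ x, ∑ y, E x y * (f x + f y) ^ 2 := by
    intro f
    have := gap_sq E ρ hs hr 1 (by norm_num) f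
    simp only [one_mul] at this
    rw [this]
    simp only [Q]
    ring
  have hQ0 : ∀ f, 0 ≤ Q f := by
    intro f
    have : 0 ≤ ∑ x, ∑ y, E x y * (f x + f y) ^ 2 :=
      Finset.sum_nonneg fun x _ => Finset.sum_nonneg fun y _ => mul_nonneg (h0 x y) (sq_nonneg _)
    rw [← hQ] at this
    linarith
  have hQz : ∀ f, Q f = 0 → ∀ x, f x = 0 := by
    intro f hf
    have h2 : ∑ x, ∑ y, E x y * (f x + f y) ^ 2 = 0 := by rw [← hQ, hf, mul_zero]
    have h3 : ∀ x y, E x y * (f x + f y) ^ 2 = 0 := by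
      intro x y
      have := (Finset.sum_eq_zero_iff_of_nonneg (fun x _ => Finset.sum_nonneg fun y _ =>
        mul_nonneg (h0 x y) (sq_nonneg _))).1 h2 x (Finset.mem_univ x)
      exact (Finset.sum_eq_zero_iff_of_nonneg (fun y _ =>
        mul_nonneg (h0 x y) (sq_nonneg _))).1 this y (Finset.mem_univ y)
    have h4 : ∀ x y, Y.Adj x y → f y = - f x := by
      intro x y hxy
      have h5 := h3 x y
      rcases mul_eq_zero.1 h5 with h | h
      · exact absurd h (hp x y hxy).ne'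
      · have := pow_eq_zero_iff (two_ne_zero) |>.1 h
        linarith
    -- positive and negative parts
    have key : ∀ g : W → ℝ, (∀ x y, Y.Adj x y → g y = - g x) →
        c * ∑ x ∈ univ.filter (fun x => 0 < g x), ρ x ≤
          ∑ x ∈ univ.filter (fun x => 0 < g x), ρ x +
            ∑ x ∈ univ.filter (fun x => g x < 0), ρ x := by
      intro g hg
      have hind : Ind Y (univ.filter (fun x => 0 < g x)) := by
        intro a ha b hb hab
        have ha := (Finset.mem_filter.1 ha).2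
        have hb := (Finset.mem_filter.1 hb).2
        rw [hg a b hab] at hb
        linarith
      obtain ⟨N, hN⟩ : ∃ N : Finset W, ∀ x, x ∈ N ↔ x ∈ univ.filter (fun x => 0 < g x) ∨
          ∃ a ∈ univ.filter (fun x => 0 < g x), Y.Adj a x := gap_set _
      refine (hX _ hind N hN).trans ?_
      have hdis : Disjoint (univ.filter (fun x => 0 < g x)) (univ.filter (fun x => g x < 0)) := by
        rw [Finset.disjoint_filter]
        intro x _ h1 h2
        linarith
      rw [← Finset.sum_union hdis]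
      refine Finset.sum_le_sum_of_subset_of_nonneg ?_ fun x _ _ => (hρ x).le
      intro x hx
      rcases (hN x).1 hx with h | ⟨a, ha, hax⟩
      · exact Finset.mem_union_left _ h
      · refine Finset.mem_union_right _ (Finset.mem_filter.2 ⟨Finset.mem_univ _, ?_⟩)
        have ha := (Finset.mem_filter.1 ha).2
        rw [hg a x hax]
        linarith
    have kA := key f h4
    have kB := key (fun x => - f x) (fun x y hxy => by rw [h4 x y hxy])
    have e1 : univ.filter (fun x => 0 < - f x) = univ.filter (fun x => f x < 0) :=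
      Finset.filter_congr fun x _ => neg_pos
    have e2 : univ.filter (fun x => - f x < 0) = univ.filter (fun x => 0 < f x) :=
      Finset.filter_congr fun x _ => neg_lt_zero
    rw [e1, e2] at kB
    have nA : 0 ≤ ∑ x ∈ univ.filter (fun x => 0 < f x), ρ x :=
      Finset.sum_nonneg fun x _ => (hρ x).le
    have nB : 0 ≤ ∑ x ∈ univ.filter (fun x => f x < 0), ρ x :=
      Finset.sum_nonneg fun x _ => (hρ x).le
    have zA : ∑ x ∈ univ.filter (fun x => 0 < f x), ρ x = 0 := by nlinarith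
    have zB : ∑ x ∈ univ.filter (fun x => f x < 0), ρ x = 0 := by nlinarith
    intro x
    by_contra hx
    rcases lt_or_gt_of_ne hx with h | h
    · have := (Finset.sum_eq_zero_iff_of_nonneg (fun x _ => (hρ x).le)).1 zB x
        (Finset.mem_filter.2 ⟨Finset.mem_univ _, h⟩)
      exact (hρ x).ne' this
    · have := (Finset.sum_eq_zero_iff_of_nonneg (fun x _ => (hρ x).le)).1 zA x
        (Finset.mem_filter.2 ⟨Finset.mem_univ _, h⟩)
      exact (hρ x).ne' this
  have hcont : Continuous Q := by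
    refine Continuous.add ?_ ?_
    · refine continuous_finsetSum _ fun x _ => continuous_finsetSum _ fun y _ => ?_
      exact (continuous_const.mul (continuous_apply x)).mul (continuous_apply y)
    · refine continuous_finsetSum _ fun x _ => ?_
      exact continuous_const.mul ((continuous_apply x).pow 2)
  have hne : (Metric.sphere (0 : W → ℝ) 1).Nonempty := ⟨fun _ => 1, by
    rw [mem_sphere_zero_iff_norm, pi_norm_const]
    norm_num⟩
  obtain ⟨f0, hf0, hmin⟩ := (isCompact_sphere (0 : W → ℝ) 1).exists_isMinOn hne hcont.continuousOn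
  have hf0n : ‖f0‖ = 1 := by simpa using hf0
  have hk0 : 0 < Q f0 := by
    refine lt_of_le_of_ne (hQ0 f0) fun h => ?_
    have : f0 = 0 := funext fun x => hQz f0 h.symm x
    rw [this, norm_zero] at hf0n
    exact zero_ne_one hf0n
  have hk : ∀ f : W → ℝ, Q f0 * ∑ x, ρ x * f x ^ 2 ≤ Q f := by
    intro f
    rcases eq_or_ne f 0 with rfl | hf
    · have : ∑ x, ρ x * (0 : W → ℝ) x ^ 2 = 0 := by simp
      rw [this, mul_zero]
      exact hQ0 0
    have hn : 0 < ‖f‖ := norm_pos_iff.2 hf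
    have hsc : Q (fun x => ‖f‖⁻¹ * f x) = (‖f‖⁻¹) ^ 2 * Q f := by
      simp only [Q]
      rw [mul_add, Finset.mul_sum, Finset.mul_sum]
      congr 1
      · refine Finset.sum_congr rfl fun x _ => ?_
        rw [Finset.mul_sum]
        exact Finset.sum_congr rfl fun y _ => by ring
      · exact Finset.sum_congr rfl fun y _ => by ring
    have hmem : (fun x => ‖f‖⁻¹ * f x) ∈ Metric.sphere (0 : W → ℝ) 1 := by
      rw [mem_sphere_zero_iff_norm]
      have : (fun x => ‖f‖⁻¹ * f x) = ‖f‖⁻¹ • f := rfl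
      rw [this, norm_smul, norm_inv, norm_norm]
      exact inv_mul_cancel₀ hn.ne'
    have h5 : Q f0 ≤ (‖f‖⁻¹) ^ 2 * Q f := by
      rw [← hsc]
      exact hmin hmem
    have h6 : ∑ x, ρ x * f x ^ 2 ≤ ‖f‖ ^ 2 := by
      calc ∑ x, ρ x * f x ^ 2 ≤ ∑ x, ρ x * ‖f‖ ^ 2 := by
            refine Finset.sum_le_sum fun x _ => mul_le_mul_of_nonneg_left ?_ (hρ x).le
            have : |f x| ≤ ‖f‖ := norm_le_pi_norm f x
            rw [← sq_abs]
            exact pow_le_pow_left₀ (abs_nonneg _) this 2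
        _ = ‖f‖ ^ 2 := by rw [← Finset.sum_mul, h1, one_mul]
    calc Q f0 * ∑ x, ρ x * f x ^ 2 ≤ Q f0 * ‖f‖ ^ 2 := mul_le_mul_of_nonneg_left h6 hk0.le
      _ ≤ ((‖f‖⁻¹) ^ 2 * Q f) * ‖f‖ ^ 2 := mul_le_mul_of_nonneg_right h5 (sq_nonneg _)
      _ = Q f := by
        field_simp
  refine ⟨1 - min (Q f0) (1 / 2), ?_, ?_, hs, hr, ?_, ?_⟩
  · have : min (Q f0) (1 / 2) ≤ 1 / 2 := min_le_right _ _
    linarith
  · have : 0 < min (Q f0) (1 / 2) := lt_min hk0 (by norm_num)
    linarith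
  · intro f
    have h7 := hk f
    have h8 : 0 ≤ ∑ x, ρ x * f x ^ 2 :=
      Finset.sum_nonneg fun x _ => mul_nonneg (hρ x).le (sq_nonneg _)
    have h9 : min (Q f0) (1 / 2) * ∑ x, ρ x * f x ^ 2 ≤ Q f0 * ∑ x, ρ x * f x ^ 2 :=
      mul_le_mul_of_nonneg_right (min_le_left _ _) h8
    have h10 : Q f = ∑ x, ∑ y, E x y * f x * f y + ∑ x, ρ x * f x ^ 2 := rfl
    rw [h10] at h7
    linarith
  · intro f
    have h11 := gap_sq E ρ hs hr (-1) (by norm_num) f
    have h12 : 0 ≤ ∑ x, ∑ y, E x y * (f x + -1 * f y) ^ 2 :=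
      Finset.sum_nonneg fun x _ => Finset.sum_nonneg fun y _ => mul_nonneg (h0 x y) (sq_nonneg _)
    rw [h11] at h12
    linarith

/-- sums over the support -/
theorem gap_sub {V : Type} [Fintype V] (φ : V → ℝ) (g : V → ℝ) [Fintype {x // 0 < φ x}]
    (h : ∀ x, ¬ 0 < φ x → g x = 0) : ∑ x : {x // 0 < φ x}, g x.1 = ∑ x, g x := by
  classical
  rw [← Finset.sum_subtype (univ.filter fun x => 0 < φ x) (by
    intro x
    rw [Finset.mem_filter]
    exact ⟨fun h => h.2, fun h => ⟨Finset.mem_univ _, h⟩⟩) g, Finset.sum_filter]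
  refine Finset.sum_congr rfl fun x _ => ?_
  by_cases hx : 0 < φ x
  · rw [if_pos hx]
  · rw [if_neg hx, h x hx]

theorem st_GAP (hFAR : ST_FAR) : ST_GAP := by
  intro V _ _ X φ c c' hφ hφ1 hX hc hcc
  classical
  have X2 : XP X φ 2 := fun I hI N hN => le_trans (mul_le_mul_of_nonneg_right (by linarith)
    (Finset.sum_nonneg fun x _ => hφ x)) (hX I hI N hN)
  obtain ⟨E0, es, e0, ea, er⟩ := hFAR V X φ hφ X2
  have hz : ∀ x y, ¬ 0 < φ x → E0 x y = 0 := by
    intro x y hx
    have h1 : φ x = 0 := le_antisymm (not_lt.1 hx) (hφ x)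
    have h2 := er x
    rw [h1] at h2
    exact (Finset.sum_eq_zero_iff_of_nonneg (fun y _ => e0 x y)).1 h2 y (Finset.mem_univ y)
  have hz' : ∀ x y, ¬ 0 < φ y → E0 x y = 0 := fun x y hy => by rw [es]; exact hz y x hy
  let S := {x // 0 < φ x}
  let u : S → S → ℝ := fun x y => if X.Adj x.1 y.1 then 1 else 0
  have hu0 : ∀ x y, 0 ≤ u x y := by
    intro x y
    simp only [u]
    split_ifs <;> norm_num
  have hus : ∀ x y, u x y = u y x := by
    intro x y
    simp only [u, X.adj_comm]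
  let φu : S → ℝ := fun x => ∑ y, u x y
  have hu1 : ∀ x : S, 0 < φu x := by
    intro x
    have h1 : ∑ y, E0 x.1 y ≠ 0 := by rw [er]; exact x.2.ne'
    obtain ⟨y, _, hy⟩ := Finset.exists_ne_zero_of_sum_ne_zero h1
    have hyS : 0 < φ y := by
      by_contra h
      exact hy (hz' _ _ h)
    have hadj : X.Adj x.1 y := by
      by_contra h
      exact hy (ea _ _ h)
    have h2 : u x ⟨y, hyS⟩ = 1 := if_pos hadj
    have h3 : u x ⟨y, hyS⟩ ≤ φu x :=
      Finset.single_le_sum (fun z _ => hu0 x z) (Finset.mem_univ _)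
    rw [h2] at h3
    linarith
  have hne : Nonempty S := by
    have h1 : ∑ x, φ x ≠ 0 := by rw [hφ1]; exact one_ne_zero
    obtain ⟨y, _, hy⟩ := Finset.exists_ne_zero_of_sum_ne_zero h1
    exact ⟨⟨y, lt_of_le_of_ne (hφ y) (Ne.symm hy)⟩⟩
  obtain ⟨m, hm⟩ : ∃ m, m = ∑ x, φu x := ⟨_, rfl⟩
  have hm0 : 0 < m := by
    rw [hm]
    exact Finset.sum_pos (fun x _ => hu1 x) Finset.univ_nonempty
  obtain ⟨K, hK⟩ : ∃ K, K = ∑ x : S, φu x / φ x.1 := ⟨_, rfl⟩
  have hK0 : 0 < K := by
    rw [hK]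
    exact Finset.sum_pos (fun x _ => div_pos (hu1 x) x.2) Finset.univ_nonempty
  have hKu : ∀ x : S, φu x ≤ K * φ x.1 := by
    intro x
    rw [← div_le_iff₀ x.2, hK]
    exact Finset.single_le_sum (f := fun x : S => φu x / φ x.1)
      (fun z _ => (div_pos (hu1 z) z.2).le) (Finset.mem_univ x)
  have hcK : 0 < c * K / m := by positivity
  obtain ⟨d, hd⟩ : ∃ d, d = (c' - c) / ((c' - c) + c * K / m) := ⟨_, rfl⟩
  have hD : 0 < (c' - c) + c * K / m := by linarith
  have hd0 : 0 < d := by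
    rw [hd]
    exact div_pos (by linarith) hD
  have hd1 : d < 1 := by
    rw [hd, div_lt_one hD]
    linarith
  have hdD : d * ((c' - c) + c * K / m) = c' - c := by
    rw [hd]
    exact div_mul_cancel₀ _ hD.ne'
  let E : S → S → ℝ := fun x y => (1 - d) * E0 x.1 y.1 + d / m * u x y
  let ρ : S → ℝ := fun x => (1 - d) * φ x.1 + d / m * φu x
  have hdm : 0 < d / m := div_pos hd0 hm0
  have hρ : ∀ x, 0 < ρ x := by
    intro x
    have h1 : 0 < (1 - d) * φ x.1 := mul_pos (by linarith) x.2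
    have h2 : 0 < d / m * φu x := mul_pos hdm (hu1 x)
    exact add_pos h1 h2
  have hφS : ∑ x : S, φ x.1 = 1 := by
    rw [gap_sub φ φ fun x hx => le_antisymm (not_lt.1 hx) (hφ x)]
    exact hφ1
  have hρ1 : ∑ x, ρ x = 1 := by
    simp only [ρ]
    rw [Finset.sum_add_distrib, ← Finset.mul_sum, ← Finset.mul_sum, hφS, ← hm,
      div_mul_cancel₀ _ hm0.ne']
    ring
  have hEs : ∀ x y, E x y = E y x := by
    intro x y
    simp only [E]
    rw [es, hus]
  have hE0 : ∀ x y, 0 ≤ E x y := by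
    intro x y
    exact add_nonneg (mul_nonneg (by linarith) (e0 _ _)) (mul_nonneg hdm.le (hu0 _ _))
  have hEr : ∀ x, ∑ y, E x y = ρ x := by
    intro x
    simp only [E, ρ]
    rw [Finset.sum_add_distrib, ← Finset.mul_sum, ← Finset.mul_sum,
      gap_sub φ (E0 x.1) fun y hy => hz' _ _ hy, er]
  let Y : GW := { V := S, X := X.comap Subtype.val, ρ := ρ, pos := hρ, one := hρ1 }
  have hEp : ∀ x y : S, X.Adj x.1 y.1 → 0 < E x y := by
    intro x y hxy
    have : u x y = 1 := if_pos hxy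
    exact add_pos_of_nonneg_of_pos (mul_nonneg (by linarith) (e0 _ _))
      (mul_pos hdm (by rw [this]; exact one_pos))
  have hEz : ∀ x y : S, ¬ X.Adj x.1 y.1 → E x y = 0 := by
    intro x y hxy
    have : u x y = 0 := if_neg hxy
    simp only [E]
    rw [this, ea _ _ hxy, mul_zero, mul_zero, add_zero]
  have hXY : XP (X.comap Subtype.val : SimpleGraph S) ρ c := by
    intro I hI N hN
    have hinj : Function.Injective (Subtype.val : S → V) := Subtype.val_injective
    have hI' : Ind X (I.image Subtype.val) := by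
      intro a ha b hb
      obtain ⟨a', ha', rfl⟩ := Finset.mem_image.1 ha
      obtain ⟨b', hb', rfl⟩ := Finset.mem_image.1 hb
      exact hI a' ha' b' hb'
    obtain ⟨N', hN'⟩ : ∃ N' : Finset V, ∀ x, x ∈ N' ↔ x ∈ I.image Subtype.val ∨
        ∃ a ∈ I.image Subtype.val, X.Adj a x := gap_set _
    have h1 := hX _ hI' N' hN'
    rw [Finset.sum_image fun a _ b _ h => hinj h] at h1
    have h2 : ∑ x ∈ N', φ x ≤ ∑ x ∈ N, φ x.1 := by
      rw [← Finset.sum_image (f := φ) (g := (Subtype.val : S → V)) fun a _ b _ h => hinj h]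
      have e1 : ∑ x ∈ N', φ x = ∑ x ∈ N'.filter (fun x => 0 < φ x), φ x := by
        rw [Finset.sum_filter]
        refine Finset.sum_congr rfl fun x _ => ?_
        by_cases hx : 0 < φ x
        · rw [if_pos hx]
        · rw [if_neg hx]
          exact le_antisymm (not_lt.1 hx) (hφ x)
      rw [e1]
      refine Finset.sum_le_sum_of_subset_of_nonneg ?_ fun x _ _ => hφ x
      intro x hx
      obtain ⟨hx1, hx2⟩ := Finset.mem_filter.1 hx
      refine Finset.mem_image.2 ⟨⟨x, hx2⟩, (hN _).2 ?_, rfl⟩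
      rcases (hN' x).1 hx1 with h | ⟨a, ha, hax⟩
      · obtain ⟨y, hy, hyx⟩ := Finset.mem_image.1 h
        left
        have : y = ⟨x, hx2⟩ := Subtype.ext hyx
        rw [← this]
        exact hy
      · obtain ⟨y, hy, rfl⟩ := Finset.mem_image.1 ha
        right
        exact ⟨y, hy, hax⟩
    have h3 : ∑ x ∈ I, ρ x = (1 - d) * ∑ x ∈ I, φ x.1 + d / m * ∑ x ∈ I, φu x := by
      simp only [ρ]
      rw [Finset.sum_add_distrib, ← Finset.mul_sum, ← Finset.mul_sum]
    have h4 : (1 - d) * ∑ x ∈ N, φ x.1 ≤ ∑ x ∈ N, ρ x := by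
      rw [Finset.mul_sum]
      refine Finset.sum_le_sum fun x _ => ?_
      have : 0 ≤ d / m * φu x := (mul_pos hdm (hu1 x)).le
      simp only [ρ]
      linarith
    have h5 : ∑ x ∈ I, φu x ≤ K * ∑ x ∈ I, φ x.1 := by
      rw [Finset.mul_sum]
      exact Finset.sum_le_sum fun x _ => hKu x
    have h6 : (1 - d) * (c' - c) = c * (d / m) * K := by
      have : c * (d / m) * K = d * (c * K / m) := by ring
      rw [this]
      linarith
    calc c * ∑ x ∈ I, ρ x = c * (1 - d) * ∑ x ∈ I, φ x.1 + c * (d / m) * ∑ x ∈ I, φu x := by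
          rw [h3]; ring
      _ ≤ c * (1 - d) * ∑ x ∈ I, φ x.1 + c * (d / m) * (K * ∑ x ∈ I, φ x.1) := by
          have : 0 ≤ c * (d / m) := by positivity
          have := mul_le_mul_of_nonneg_left h5 this
          linarith
      _ = (1 - d) * (c' * ∑ x ∈ I, φ x.1) := by
          have : c * (d / m) * (K * ∑ x ∈ I, φ x.1) = (c * (d / m) * K) * ∑ x ∈ I, φ x.1 := by ring
          rw [this, ← h6]
          ring
      _ ≤ (1 - d) * ∑ x ∈ N, φ x.1 :=
          mul_le_mul_of_nonneg_left (h1.trans h2) (by linarith)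
      _ ≤ ∑ x ∈ N, ρ x := h4
  obtain ⟨M, hM0, hM1, hFM⟩ := gap_fm (X.comap Subtype.val : SimpleGraph S) ρ E c hEs hE0 hEr
    (fun x y hxy => hEp x y hxy) hρ hρ1 hXY hc
  exact ⟨Y, M, hM0, hM1, ⟨E, fun x y hxy => hEz x y hxy, hFM⟩, hXY, ⟨Subtype.val, fun a b h => h⟩⟩

end Pool.Agent.Helper14.FO
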